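import Pool.Agent.Lib.MP_78e117_co.Lat
import Pool.Agent.Lib.MP_78e117_co.Prod
import Pool.Agent.Lib.MP_78e117_co.Irr
import Pool.Agent.Lib.MP_78e117_co.Count
import Pool.Agent.Lib.MP_78e117_co.Final

/-!
# MP_78e117_co: meet-irreducibles of a finite lattice with `n` join-irreducibles

For every `m ≥ 3`, with `g = (9 m ^ 2 - m + 2) / (4 (4 m ^ 2 - 1) (m + 1))`, there is a finite
lattice with exactly `2 m` join-irreducible elements and at least `C(2m, m) (1 + g)`
meet-irreducible elements, and one with exactly `2 m + 1` join-irreducible elements and at least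
`C(2m, m) (2 + g)` meet-irreducible elements.
-/

set_option autoImplicit false

namespace Pool.Agent.Results.MP_78e117_co.SecondOrder

theorem result (m : ℕ) (hm : 3 ≤ m) :
    (∃ (L : Type) (_ : Lattice L), Finite L ∧ {x : L | ∃! y, y ⋖ x}.ncard = 2 * m ∧
      ((2 * m).choose m : ℝ) * (1 + (9 * m ^ 2 - m + 2) / (4 * (4 * m ^ 2 - 1) * (m + 1))) ≤
        ({x : L | ∃! y, x ⋖ y}.ncard : ℝ)) ∧
    (∃ (L : Type) (_ : Lattice L), Finite L ∧ {x : L | ∃! y, y ⋖ x}.ncard = 2 * m + 1 ∧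
      ((2 * m).choose m : ℝ) * (2 + (9 * m ^ 2 - m + 2) / (4 * (4 * m ^ 2 - 1) * (m + 1))) ≤
        ({x : L | ∃! y, x ⋖ y}.ncard : ℝ)) := by
  have h := Pool.Agent.Lib.MP_78e117_co.final Pool.Agent.Lib.MP_78e117_co.lat
    Pool.Agent.Lib.MP_78e117_co.prod Pool.Agent.Lib.MP_78e117_co.irr
    Pool.Agent.Lib.MP_78e117_co.count
  exact ⟨h.1 m hm, h.2.1 m hm⟩

end Pool.Agent.Results.MP_78e117_co.SecondOrder
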