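import Pool.Agent.Lib.MP_78e117_co.Upper.Main

/-!
# MP_78e117_co: an upper bound for the number of meet-irreducibles

A finite lattice with exactly `2 h` join-irreducible elements has at most
`(1 + 1 / (h - 1)) (C(2h, h) - 2)` meet-irreducible elements, and one with exactly `2 h + 1`
join-irreducible elements has at most `(1 + 1 / (h - 1)) C(2h + 1, h)`, for all `h ≥ 2`.
-/

set_option autoImplicit false

namespace Pool.Agent.Results.MP_78e117_co.UpperBound

theorem result (h : ℕ) (h2 : 2 ≤ h) (L : Type) [Lattice L] [Finite L] :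
    ({x : L | ∃! y, y ⋖ x}.ncard = 2 * h →
      ({x : L | ∃! y, x ⋖ y}.ncard : ℝ) ≤
        (1 + 1 / ((h : ℝ) - 1)) * (((2 * h).choose h : ℝ) - 2)) ∧
    ({x : L | ∃! y, y ⋖ x}.ncard = 2 * h + 1 →
      ({x : L | ∃! y, x ⋖ y}.ncard : ℝ) ≤
        (1 + 1 / ((h : ℝ) - 1)) * ((2 * h + 1).choose h : ℝ)) :=
  ⟨Pool.Agent.Lib.MP_78e117_co.Upper.upper_even L h2,
    Pool.Agent.Lib.MP_78e117_co.Upper.upper_odd L h2⟩

end Pool.Agent.Results.MP_78e117_co.UpperBound
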